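import Pool.Agent.Q22.LK.Kum

/-! Job CR2I of project LK: the class of a unit of relative norm `1`. -/

set_option autoImplicit false

namespace Pool.Agent.Q22.LK

open NumberField IsDedekindDomain Polynomial IntermediateField
open Pool.Agent.Q7.LK

section Key

variable {p : ℕ} {F L : Type} [Field F] [Field L] [NumberField F] [NumberField L] [Algebra F L] {ζ d : F} {ρ : L}

/-- the automorphisms which change `y` by a unit -/
def stab (y : L) (hy : y ≠ 0) : Subgroup (L ≃ₐ[F] L) where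
  carrier := {g | IsIntegral ℤ (g y / y) ∧ IsIntegral ℤ (y / g y)}
  one_mem' := by
    simp only [Set.mem_ofPred_eq, AlgEquiv.one_apply, div_self hy]
    exact ⟨isIntegral_one, isIntegral_one⟩
  mul_mem' := by
    intro g h hg hh
    simp only [Set.mem_ofPred_eq, AlgEquiv.mul_apply] at *
    have hgy : g y ≠ 0 := by rw [ne_eq, EmbeddingLike.map_eq_zero_iff]; exact hy
    have hhy : h y ≠ 0 := by rw [ne_eq, EmbeddingLike.map_eq_zero_iff]; exact hy
    have hghy : g (h y) ≠ 0 := by rw [ne_eq, EmbeddingLike.map_eq_zero_iff]; exact hhy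
    constructor
    · have h1 : g (h y) / y = g (h y / y) * (g y / y) := by
        rw [map_div₀]; field_simp
      rw [h1]
      exact (hh.1.map (g.toAlgHom.restrictScalars ℤ)).mul hg.1
    · have h1 : y / g (h y) = g (y / h y) * (y / g y) := by
        rw [map_div₀]; field_simp
      rw [h1]
      exact (hh.2.map (g.toAlgHom.restrictScalars ℤ)).mul hg.2
  inv_mem' := by
    intro g hg
    simp only [Set.mem_ofPred_eq] at *
    have hgy : g y ≠ 0 := by rw [ne_eq, EmbeddingLike.map_eq_zero_iff]; exact hy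
    have hgg : g⁻¹ (g y) = y := by
      rw [← AlgEquiv.mul_apply, inv_mul_cancel, AlgEquiv.one_apply]
    constructor
    · have h1 : g⁻¹ y / y = g⁻¹ (y / g y) := by
        rw [map_div₀, hgg]
      rw [h1]
      exact hg.2.map ((g⁻¹ : L ≃ₐ[F] L).toAlgHom.restrictScalars ℤ)
    · have h1 : y / g⁻¹ y = g⁻¹ (g y / y) := by
        rw [map_div₀, hgg]
      rw [h1]
      exact hg.1.map ((g⁻¹ : L ≃ₐ[F] L).toAlgHom.restrictScalars ℤ)

theorem unit_of_norm_one (hp : p.Prime) (hζ : IsPrimitiveRoot ζ p) (hfr : Module.finrank F L = p)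
    (hρ : ρ ^ p = algebraMap F L d) (hd : ¬ IsPow p d) {σ : L ≃ₐ[F] L} (hσ : σ ≠ 1) {y : L} (hy : y ≠ 0)
    (hn : Algebra.norm F y = 1) {u : L} (hu1 : IsIntegral ℤ u) (hu2 : IsIntegral ℤ u⁻¹) (hu : σ y = u * y) :
    ∃ η : (𝓞 L)ˣ, ((η : 𝓞 L) : L) = y := by
  have hgal := galois hp hζ hfr hρ hd
  have hst : σ ∈ stab (F := F) y hy := by
    refine ⟨?_, ?_⟩
    · rw [hu, mul_div_assoc, div_self hy, mul_one]; exact hu1
    · rw [hu, div_mul_eq_div_div_swap, div_self hy, one_div]; exact hu2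
  have hall : ∀ g : L ≃ₐ[F] L, g ∈ stab (F := F) y hy := by
    intro g
    exact (Subgroup.zpowers_le.2 hst) (gen hp hζ hfr hρ hd hσ g)
  have hprod : ∏ g : L ≃ₐ[F] L, g y = 1 := by
    rw [← Algebra.norm_eq_prod_automorphisms F y, hn, map_one]
  have hcard : Fintype.card (L ≃ₐ[F] L) = p := by
    rw [← Nat.card_eq_fintype_card]; exact card_aut hp hζ hfr hρ hd
  have h1 : ∏ g : L ≃ₐ[F] L, (g y / y) = (y⁻¹) ^ p := by
    rw [Finset.prod_div_distrib, hprod, Finset.prod_const, Finset.card_univ, hcard, one_div, inv_pow]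
  have h2 : ∏ g : L ≃ₐ[F] L, (y / g y) = y ^ p := by
    rw [Finset.prod_div_distrib, hprod, Finset.prod_const, Finset.card_univ, hcard, div_one]
  have hi1 : IsIntegral ℤ y := by
    refine IsIntegral.of_pow hp.pos ?_
    rw [← h2]
    exact IsIntegral.prod _ fun g _ => (hall g).2
  have hi2 : IsIntegral ℤ y⁻¹ := by
    refine IsIntegral.of_pow hp.pos ?_
    rw [← h1]
    exact IsIntegral.prod _ fun g _ => (hall g).1
  refine ⟨⟨⟨y, hi1⟩, ⟨y⁻¹, hi2⟩, ?_, ?_⟩, rfl⟩
  · ext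
    exact mul_inv_cancel₀ hy
  · ext
    exact inv_mul_cancel₀ hy

end Key

theorem cr2i : S_CR1B → S_CR2LA → S_CR2LB → S_CR2T → S_CR2U → S_CR2I := by
  intro hB hLA hLB hT hU p _ hp2 F L _ _ _ _ _ ζ d hζ hK hd I hpI hO
  have hp : p.Prime := Fact.out
  obtain ⟨hfr, ρ, hρ⟩ := hK
  have hK : Kum p F L d := ⟨hfr, ρ, hρ⟩
  have hd0 : d ≠ 0 := by
    rintro rfl
    exact hd ⟨0, (zero_pow hp.ne_zero).symm⟩
  have hρ0 : ρ ≠ 0 := by
    rintro rfl
    rw [zero_pow hp.ne_zero] at hρ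
    exact hd0 ((map_eq_zero_iff _ (algebraMap F L).injective).1 hρ.symm)
  -- a nontrivial automorphism
  have hex : ∃ σ : L ≃ₐ[F] L, σ ≠ 1 := by
    by_contra hcon
    push Not at hcon
    have h1 := card_aut hp hζ hfr hρ hd
    have h2 : Nat.card (L ≃ₐ[F] L) = 1 := by
      rw [Nat.card_eq_one_iff_unique]
      exact ⟨⟨fun a b => by rw [hcon a, hcon b]⟩, ⟨1⟩⟩
    rw [h1] at h2
    exact hp.one_lt.ne' h2
  obtain ⟨σ, hσ⟩ := hex
  obtain ⟨w, hw1, hw2, M, hM⟩ := hB p hp2 F L ζ d hζ hK hd I hpI hO σ hσ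
  obtain ⟨y, hy0, hy⟩ := hilbert90 hp hζ hfr hρ hd hσ hw1
  have hN0 : Algebra.norm F y ≠ 0 := by
    rw [ne_eq, Algebra.norm_eq_zero_iff]; exact hy0
  refine ⟨Algebra.norm F y, ⟨hN0, ?_, ?_, ?_⟩, ?_⟩
  · intro v hv hv0
    exact (hT p hp2 F L ζ d hζ hK hd σ hσ v hv w y hy0 hy).1 hv0
  · intro v hv hv0
    exact (hT p hp2 F L ζ d hζ hK hd σ hσ v hv w y hy0 hy).2 hv0
  · intro v hv
    refine ⟨?_, ?_⟩
    · intro hI
      exact ⟨hN0, fun h => hLB p hp2 F L ζ d hζ hK hd σ hσ I hpI v hI w M hM y hy0 hy h,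
        fun h => hLA p hp2 F L ζ d hζ hK hd σ hσ I hpI v hI w M hM y hy0 hy h⟩
    · intro hI
      exact hU p hp2 F L ζ d hζ hK hd σ hσ v w y hy0 hy
  · intro j hj
    obtain ⟨t, ht⟩ := hj
    have ht0 : t ≠ 0 := by
      rintro rfl
      rw [zero_pow hp.ne_zero] at ht
      exact mul_ne_zero hN0 (pow_ne_zero _ hd0) ht
    have htL : algebraMap F L t ≠ 0 := by
      rw [ne_eq, map_eq_zero_iff _ (algebraMap F L).injective]; exact ht0
    obtain ⟨k, hk⟩ := aut_root hp hζ hρ hρ0 σ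
    set z : L := algebraMap F L ζ with hz
    have hzp : z ^ p = 1 := by rw [hz, ← map_pow, hζ.pow_eq_one, map_one]
    have hz0 : z ≠ 0 := by
      intro h0
      rw [h0, zero_pow hp.ne_zero] at hzp
      exact zero_ne_one hzp
    have hzi : IsIntegral ℤ z := by
      refine IsIntegral.of_pow hp.pos ?_
      rw [hzp]; exact isIntegral_one
    have hzi' : IsIntegral ℤ z⁻¹ := by
      refine IsIntegral.of_pow hp.pos ?_
      rw [inv_pow, hzp, inv_one]; exact isIntegral_one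
    set y' : L := y * ρ ^ j / algebraMap F L t with hy'
    have hy'0 : y' ≠ 0 := div_ne_zero (mul_ne_zero hy0 (pow_ne_zero _ hρ0)) htL
    have hn : Algebra.norm F y' = 1 := by
      have h1 : y' * algebraMap F L t = y * ρ ^ j := by
        rw [hy', div_mul_cancel₀ _ htL]
      have h2 := congrArg (Algebra.norm F) h1
      rw [map_mul, map_mul, map_pow, norm_root hp hp2 hfr hρ hd, Algebra.norm_algebraMap, hfr, ht] at h2
      exact (mul_eq_right₀ (pow_ne_zero _ ht0)).1 h2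
    have hwi : IsIntegral ℤ ((w : 𝓞 L) : L) := RingOfIntegers.isIntegral_coe _
    have hw0 : ((w : 𝓞 L) : L) ≠ 0 := by
      intro h0
      rw [h0, Algebra.norm_zero] at hw1
      exact zero_ne_one hw1
    have hwi' : IsIntegral ℤ (((w : 𝓞 L) : L))⁻¹ := by
      have h1 : (((w⁻¹ : (𝓞 L)ˣ) : 𝓞 L) : L) = (((w : 𝓞 L) : L))⁻¹ := by
        rw [eq_comm, inv_eq_of_mul_eq_one_right]
        have h2 : ((w : 𝓞 L)) * ((w⁻¹ : (𝓞 L)ˣ) : 𝓞 L) = 1 := w.mul_inv
        have h3 := congrArg (algebraMap (𝓞 L) L) h2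
        rwa [map_mul, map_one] at h3
      rw [← h1]
      exact RingOfIntegers.isIntegral_coe _
    have hσt : σ (algebraMap F L t) = algebraMap F L t := σ.commutes t
    have hu : σ y' = (((w : 𝓞 L) : L) * z ^ (k * j)) * y' := by
      rw [hy', map_div₀, map_mul, map_pow, hσt, ← hy, hk, mul_pow, ← pow_mul]
      field_simp
    obtain ⟨η, hη⟩ := unit_of_norm_one hp hζ hfr hρ hd hσ hy'0 hn
      (u := ((w : 𝓞 L) : L) * z ^ (k * j)) (hwi.mul (hzi.pow _))
      (by rw [mul_inv, ← inv_pow]; exact hwi'.mul (hzi'.pow _)) hu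
    refine hw2 η ((p - 1) * (k * j)) (by rw [hη]; exact hn) ?_
    rw [hη, hu]
    have h1 : z ^ ((p - 1) * (k * j)) * z ^ (k * j) = 1 := by
      rw [← pow_add]
      have : (p - 1) * (k * j) + k * j = p * (k * j) := by
        obtain ⟨q, hq⟩ : ∃ q, p = q + 1 := ⟨p - 1, by have := hp.pos; omega⟩
        rw [hq]; simp; ring
      rw [this, pow_mul, hzp, one_pow]
    calc ((w : 𝓞 L) : L) * y' = (z ^ ((p - 1) * (k * j)) * z ^ (k * j)) * (((w : 𝓞 L) : L) * y') := by
          rw [h1, one_mul]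
      _ = _ := by ring

end Pool.Agent.Q22.LK
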