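import Pool.Agent.Q7.LK.Stm2

/-! Kummer extensions of odd prime degree: automorphisms, Hilbert 90, the norm of the root. -/

set_option autoImplicit false

namespace Pool.Agent.Q22.LK

open NumberField IsDedekindDomain Polynomial IntermediateField
open Pool.Agent.Q7.LK

variable {p : ℕ} {F L : Type} [Field F] [Field L] [NumberField F] [NumberField L] [Algebra F L] {ζ d : F} {ρ : L}

theorem irr (hp : p.Prime) (hd : ¬ IsPow p d) : Irreducible (X ^ p - C d : F[X]) := by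
  rw [X_pow_sub_C_irreducible_iff_of_prime hp]
  intro b hb
  exact hd ⟨b, hb.symm⟩

theorem adj_top (hp : p.Prime) (hfr : Module.finrank F L = p) (hρ : ρ ^ p = algebraMap F L d)
    (hd : ¬ IsPow p d) : F⟮ρ⟯ = ⊤ := by
  have h1 : (Module.finrank F L).Prime := by rwa [hfr]
  have := IntermediateField.isSimpleOrder_of_finrank_prime F L h1
  rcases eq_bot_or_eq_top F⟮ρ⟯ with h | h
  · exfalso
    have h2 : ρ ∈ (⊥ : IntermediateField F L) := by
      rw [← h]; exact IntermediateField.mem_adjoin_simple_self F ρ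
    rw [IntermediateField.mem_bot] at h2
    obtain ⟨x, hx⟩ := h2
    apply hd
    refine ⟨x, ?_⟩
    apply (algebraMap F L).injective
    rw [map_pow, hx, hρ]
  · exact h

theorem galois (hp : p.Prime) (hζ : IsPrimitiveRoot ζ p) (hfr : Module.finrank F L = p)
    (hρ : ρ ^ p = algebraMap F L d) (hd : ¬ IsPow p d) : IsGalois F L := by
  have htop := adj_top hp hfr hρ hd
  have hK : (primitiveRoots (Module.finrank F L) F).Nonempty := by
    rw [hfr]
    exact ⟨ζ, (mem_primitiveRoots hp.pos).2 hζ⟩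
  have hsp : IsSplittingField F L (X ^ (Module.finrank F L) - C d) :=
    isSplittingField_X_pow_sub_C_of_root_adjoin_eq_top hK (by rw [hfr]; exact hρ) htop
  have hirr : Irreducible (X ^ (Module.finrank F L) - C d) := by rw [hfr]; exact irr hp hd
  exact isGalois_of_isSplittingField_X_pow_sub_C hK hirr L

theorem card_aut (hp : p.Prime) (hζ : IsPrimitiveRoot ζ p) (hfr : Module.finrank F L = p)
    (hρ : ρ ^ p = algebraMap F L d) (hd : ¬ IsPow p d) : Nat.card (L ≃ₐ[F] L) = p := by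
  have := galois hp hζ hfr hρ hd
  rw [IsGalois.card_aut_eq_finrank, hfr]

theorem gen (hp : p.Prime) (hζ : IsPrimitiveRoot ζ p) (hfr : Module.finrank F L = p)
    (hρ : ρ ^ p = algebraMap F L d) (hd : ¬ IsPow p d) {σ : L ≃ₐ[F] L} (hσ : σ ≠ 1) (g : L ≃ₐ[F] L) :
    g ∈ Subgroup.zpowers σ := by
  have hc := card_aut hp hζ hfr hρ hd
  have : Fact (Nat.card (L ≃ₐ[F] L)).Prime := ⟨by rw [hc]; exact hp⟩
  exact mem_zpowers_of_prime_card (p := Nat.card (L ≃ₐ[F] L)) rfl hσ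

theorem cyc (hp : p.Prime) (hζ : IsPrimitiveRoot ζ p) (hfr : Module.finrank F L = p)
    (hρ : ρ ^ p = algebraMap F L d) (hd : ¬ IsPow p d) : IsCyclic (L ≃ₐ[F] L) := by
  have hc := card_aut hp hζ hfr hρ hd
  have : Fact (Nat.card (L ≃ₐ[F] L)).Prime := ⟨by rw [hc]; exact hp⟩
  exact isCyclic_of_prime_card (p := Nat.card (L ≃ₐ[F] L)) rfl

theorem hilbert90 (hp : p.Prime) (hζ : IsPrimitiveRoot ζ p) (hfr : Module.finrank F L = p)
    (hρ : ρ ^ p = algebraMap F L d) (hd : ¬ IsPow p d) {σ : L ≃ₐ[F] L} (hσ : σ ≠ 1) {w : L}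
    (hw : Algebra.norm F w = 1) : ∃ y : L, y ≠ 0 ∧ w * y = σ y := by
  have := galois hp hζ hfr hρ hd
  have := cyc hp hζ hfr hρ hd
  obtain ⟨y, hy⟩ := groupCohomology.exists_div_of_norm_eq_one (K := F) (L := L) (g := σ)
    (gen hp hζ hfr hρ hd hσ) (x := w⁻¹) (by rw [Algebra.norm_inv, hw, inv_one])
  have hw0 : w ≠ 0 := by
    rintro rfl
    rw [Algebra.norm_zero] at hw
    exact zero_ne_one hw
  refine ⟨y, y.ne_zero, ?_⟩
  have hy0 : (y : L) ≠ 0 := y.ne_zero
  have hs0 : σ (y : L) ≠ 0 := by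
    rw [ne_eq, EmbeddingLike.map_eq_zero_iff]; exact hy0
  have h1 : (y : L) / σ (y : L) = w⁻¹ := hy
  have h2 : (y : L) = w⁻¹ * σ (y : L) := by
    rw [← h1]; field_simp
  calc w * (y : L) = w * (w⁻¹ * σ (y : L)) := by rw [← h2]
    _ = σ (y : L) := by rw [← mul_assoc, mul_inv_cancel₀ hw0, one_mul]

theorem norm_root (hp : p.Prime) (hp2 : p ≠ 2) (hfr : Module.finrank F L = p)
    (hρ : ρ ^ p = algebraMap F L d) (hd : ¬ IsPow p d) : Algebra.norm F ρ = d := by
  have htop := adj_top hp hfr hρ hd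
  have hint : IsIntegral F ρ := IsIntegral.of_finite F ρ
  have hadj : Algebra.adjoin F {ρ} = ⊤ := by
    have h1 := IntermediateField.adjoin_simple_toSubalgebra_of_isAlgebraic
      (IsAlgebraic.of_finite F ρ)
    rw [← h1, htop]
    rfl
  have hmin : minpoly F ρ = X ^ p - C d := by
    symm
    refine minpoly.eq_of_irreducible_of_monic (irr hp hd) ?_ (monic_X_pow_sub_C _ hp.ne_zero)
    simp [hρ]
  have h1 := Algebra.PowerBasis.norm_gen_eq_coeff_zero_minpoly (PowerBasis.ofAdjoinEqTop' hint hadj)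
  rw [PowerBasis.ofAdjoinEqTop'_gen, PowerBasis.ofAdjoinEqTop'_dim, hmin] at h1
  rw [h1]
  have hodd : Odd p := hp.odd_of_ne_two hp2
  rw [natDegree_X_pow_sub_C, hodd.neg_one_pow]
  simp [hp.ne_zero, coeff_X_pow, hp.ne_zero.symm]

theorem aut_root (hp : p.Prime) (hζ : IsPrimitiveRoot ζ p) (hρ : ρ ^ p = algebraMap F L d) (hρ0 : ρ ≠ 0)
    (σ : L ≃ₐ[F] L) : ∃ k : ℕ, σ ρ = (algebraMap F L ζ) ^ k * ρ := by
  have hζ' : IsPrimitiveRoot (algebraMap F L ζ) p := hζ.map_of_injective (algebraMap F L).injective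
  have h1 : (σ ρ / ρ) ^ p = 1 := by
    rw [div_pow, ← map_pow, hρ, σ.commutes, ← hρ, div_self (pow_ne_zero _ hρ0)]
  have : NeZero p := ⟨hp.ne_zero⟩
  obtain ⟨k, -, hk⟩ := hζ'.eq_pow_of_pow_eq_one h1
  refine ⟨k, ?_⟩
  rw [hk]
  field_simp

end Pool.Agent.Q22.LK
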