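import Pool.Agent.Q22.LK.Pid
import Pool.Agent.Q14.LQS.Cr1a
import Pool.Agent.Q7.LK.Stm2

/-!
# Job SGA of project LK: from the kernel of the logarithms to a relation between units of relative norm `1`

(the template is `Pool.Agent.Q1.LK.SA`, `Pool.Agent.Q1.LK.SgA`, helper1, `p = 2`)
-/

set_option autoImplicit false
set_option linter.unusedSectionVars false

namespace Pool.Agent.Q22.LK

open NumberField Module Filter Topology Finset TensorProduct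
open Pool.Agent.W289.SL Pool.Agent.Y419.LC.LcpP

section

variable {p : ℕ} [hp : Fact p.Prime] {E : Type} [Field E] [NumberField E]

open Classical in
/-- the logarithms at the embeddings above `J` and their coordinates -/
theorem exists_d {L : ℂ_[p] → ℂ_[p]} (hL : IsIwasawaLog p L) (J : Ideal (𝓞 E)) (ε y : 𝓞 E)
    (hy : ε = 1 + ((p : ℕ) : 𝓞 E) ^ 4 * y) : ∃ d : Pool.Agent.Y419.LC.LcpP.J E → ℚ_[p], ∀ σ : E →+* ℂ_[p],
      ∑ m, algebraMap ℚ_[p] ℂ_[p] (d m) * σ ((om E m : 𝓞 E) : E) = if Ab J σ then L (σ ((ε : 𝓞 E) : E)) else 0 := by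
  obtain ⟨c, hc⟩ := exists_c hL ε y hy
  obtain ⟨e, he⟩ := idem (p := p) J
  refine ⟨fun m => ∑ j, ∑ l, e j * c l * (((om E).repr (om E j * om E l) m : ℤ) : ℚ_[p]), fun σ => ?_⟩
  have h1 : ∀ j l, σ ((om E j : 𝓞 E) : E) * σ ((om E l : 𝓞 E) : E) =
      ∑ m, (((om E).repr (om E j * om E l) m : ℤ) : ℂ_[p]) * σ ((om E m : 𝓞 E) : E) := by
    intro j l
    rw [← emb_coord σ (om E j * om E l)]
    simp only [map_mul]
  calc ∑ m, algebraMap ℚ_[p] ℂ_[p] (∑ j, ∑ l, e j * c l * (((om E).repr (om E j * om E l) m : ℤ) : ℚ_[p])) *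
        σ ((om E m : 𝓞 E) : E) = ∑ m, ∑ j, ∑ l, (algebraMap ℚ_[p] ℂ_[p] (e j) * algebraMap ℚ_[p] ℂ_[p] (c l) *
          (((om E).repr (om E j * om E l) m : ℤ) : ℂ_[p])) * σ ((om E m : 𝓞 E) : E) := by
        refine Finset.sum_congr rfl fun m _ => ?_
        rw [map_sum, Finset.sum_mul]
        refine Finset.sum_congr rfl fun j _ => ?_
        rw [map_sum, Finset.sum_mul]
        refine Finset.sum_congr rfl fun l _ => ?_
        rw [map_mul, map_mul, map_intCast]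
    _ = ∑ j, ∑ l, ∑ m, (algebraMap ℚ_[p] ℂ_[p] (e j) * algebraMap ℚ_[p] ℂ_[p] (c l) *
          (((om E).repr (om E j * om E l) m : ℤ) : ℂ_[p])) * σ ((om E m : 𝓞 E) : E) := by
        rw [Finset.sum_comm]
        refine Finset.sum_congr rfl fun j _ => ?_
        rw [Finset.sum_comm]
    _ = ∑ j, ∑ l, (algebraMap ℚ_[p] ℂ_[p] (e j) * σ ((om E j : 𝓞 E) : E)) *
          (algebraMap ℚ_[p] ℂ_[p] (c l) * σ ((om E l : 𝓞 E) : E)) := by
        refine Finset.sum_congr rfl fun j _ => Finset.sum_congr rfl fun l _ => ?_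
        have h2 : (algebraMap ℚ_[p] ℂ_[p] (e j) * σ ((om E j : 𝓞 E) : E)) *
          (algebraMap ℚ_[p] ℂ_[p] (c l) * σ ((om E l : 𝓞 E) : E)) = algebraMap ℚ_[p] ℂ_[p] (e j) *
            algebraMap ℚ_[p] ℂ_[p] (c l) * (σ ((om E j : 𝓞 E) : E) * σ ((om E l : 𝓞 E) : E)) := by ring
        rw [h2, h1, Finset.mul_sum]
        refine Finset.sum_congr rfl fun m _ => ?_
        ring
    _ = (∑ j, algebraMap ℚ_[p] ℂ_[p] (e j) * σ ((om E j : 𝓞 E) : E)) *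
          ∑ l, algebraMap ℚ_[p] ℂ_[p] (c l) * σ ((om E l : 𝓞 E) : E) := by
        rw [Finset.sum_mul_sum]
    _ = _ := by
        rw [he σ, ← hc σ]
        split_ifs
        · rw [one_mul]
        · rw [zero_mul]

/-- the logarithm of a product of powers -/
theorem log_prod {L : ℂ_[p] → ℂ_[p]} (hL : IsIwasawaLog p L) (σ : E →+* ℂ_[p]) {q : ℕ} (ε : Fin q → (𝓞 E)ˣ)
    (m : Fin q → ℤ) : L (σ (((∏ i, ε i ^ m i : (𝓞 E)ˣ) : 𝓞 E) : E)) =
      ∑ i, (m i : ℂ_[p]) * L (σ ((ε i : 𝓞 E) : E)) := by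
  have h2 : logHom hL σ (Additive.ofMul (∏ i, ε i ^ m i)) = ∑ i, (m i) • logHom hL σ
      (Additive.ofMul (ε i)) := by
    rw [ofMul_prod, map_sum]
    refine Finset.sum_congr rfl fun i _ => ?_
    rw [ofMul_zpow, map_zsmul]
  have h3 : L (σ (((∏ i, ε i ^ m i : (𝓞 E)ˣ) : 𝓞 E) : E)) = logHom hL σ (Additive.ofMul (∏ i, ε i ^ m i)) := rfl
  rw [h3, h2]
  refine Finset.sum_congr rfl fun i _ => ?_
  rw [zsmul_eq_mul]
  rfl

theorem log_pow {L : ℂ_[p] → ℂ_[p]} (hL : IsIwasawaLog p L) (σ : E →+* ℂ_[p]) (u : (𝓞 E)ˣ) (n : ℕ) :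
    L (σ (((u ^ n : (𝓞 E)ˣ) : 𝓞 E) : E)) = (n : ℂ_[p]) * L (σ ((u : 𝓞 E) : E)) := by
  have h3 : L (σ (((u ^ n : (𝓞 E)ˣ) : 𝓞 E) : E)) = logHom hL σ (Additive.ofMul (u ^ n)) := rfl
  rw [h3, ofMul_pow, map_nsmul, nsmul_eq_mul]
  rfl

/-- a `p`-adic relation between the logarithms above `J` -/
theorem rel_of_log {L : ℂ_[p] → ℂ_[p]} (hL : IsIwasawaLog p L) (J : Ideal (𝓞 E)) (hJ : ((p : ℕ) : 𝓞 E) ∈ J) {q : ℕ}
    (ε : Fin q → (𝓞 E)ˣ) (hε : ∀ i, ε i ∈ U4 E p) (b : Fin q → ℤ_[p])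
    (hb : ∀ σ : E →+* ℂ_[p], Ab J σ → ∑ i, algebraMap ℚ_[p] ℂ_[p] (b i : ℚ_[p]) * L (σ ((ε i : 𝓞 E) : E)) = 0) :
    Pool.Agent.Q7.LK.Rel p E J ε b := by
  have hm := fun i => exists_seq (b i)
  choose m hm using hm
  refine ⟨fun k i => m i k, hm, fun N => ?_⟩
  set u : ℕ → (𝓞 E)ˣ := fun k => ∏ i, ε i ^ m i k with hu
  have hu4 : ∀ k, u k ∈ U4 E p := fun k =>
    Subgroup.prod_mem _ fun i _ => Subgroup.zpow_mem _ (hε i) _
  have hlog : ∀ σ : E →+* ℂ_[p], Ab J σ → Tendsto (fun k => L (σ ((u k : 𝓞 E) : E))) atTop (𝓝 0) := by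
    intro σ hσ
    have h1 : ∀ k, L (σ ((u k : 𝓞 E) : E)) = ∑ i, algebraMap ℚ_[p] ℂ_[p]
        (((m i k : ℤ) : PadicInt p) : ℚ_[p]) * L (σ ((ε i : 𝓞 E) : E)) := by
      intro k
      rw [hu, log_prod hL σ ε (fun i => m i k)]
      refine Finset.sum_congr rfl fun i _ => ?_
      congr 1
      simp
    simp only [h1]
    have hj : Continuous (fun x : PadicInt p => algebraMap ℚ_[p] ℂ_[p] (x : ℚ_[p])) :=
      (continuous_algebraMap ℚ_[p] ℂ_[p]).comp continuous_subtype_val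
    rw [← hb σ hσ]
    refine tendsto_finsetSum _ fun i _ => ?_
    exact ((hj.tendsto (b i)).comp (hm i)).mul_const _
  refine tendsto_mem (p := p) J hJ (fun k => (u k : 𝓞 E) - 1) (fun σ hσ => ?_) N
  have h1 : ∀ k, ‖σ (((u k : 𝓞 E) - 1 : 𝓞 E) : E)‖ ≤ 2 * ‖L (σ ((u k : 𝓞 E) : E))‖ := by
    intro k
    obtain ⟨v, hv⟩ := (mem_U4 (u k)).1 (hu4 k)
    have h2 : ‖σ (((u k : 𝓞 E) - 1 : 𝓞 E) : E)‖ ≤ 1 / 8 := by
      rw [hv]
      have h3 : σ ((((p : ℕ) : 𝓞 E) ^ 4 * v : 𝓞 E) : E) = ((p : ℕ) : ℂ_[p]) ^ 4 * σ (v : E) := by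
        simp only [map_mul, map_pow, map_natCast]
      rw [h3, norm_mul, norm_pow, norm_p]
      have h4 := norm_emb_le σ v
      have h5 : ((p : ℝ)⁻¹) ≤ 2⁻¹ := by
        apply inv_anti₀ (by norm_num)
        exact_mod_cast hp.out.two_le
      have h6 : ((p : ℝ)⁻¹) ^ 4 ≤ (2⁻¹) ^ 4 := pow_le_pow_left₀ (by positivity) h5 4
      calc ((p : ℝ)⁻¹) ^ 4 * ‖σ (v : E)‖ ≤ (2⁻¹) ^ 4 * 1 := by gcongr
        _ ≤ 1 / 8 := by norm_num
    have h3 := dist_le hL h2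
    have h4 : 1 + σ (((u k : 𝓞 E) - 1 : 𝓞 E) : E) = σ ((u k : 𝓞 E) : E) := by
      have h5 : σ (((u k : 𝓞 E) - 1 : 𝓞 E) : E) = σ ((u k : 𝓞 E) : E) - 1 := by
        simp only [map_sub, map_one]
      rw [h5]
      ring
    rw [h4] at h3
    exact h3
  refine squeeze_zero_norm h1 ?_
  have h2 := ((hlog σ hσ).norm).const_mul 2
  rw [norm_zero, mul_zero] at h2
  exact h2

end

/-- the main step: from a `ℂ_p`-relation to a `p`-adic relation -/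
theorem core {p : ℕ} [hp : Fact p.Prime] (K H : Type) [Field K] [NumberField K] [Field H] [NumberField H] [Algebra K H]
    (I : Ideal (𝓞 K)) (hpI : ((p : ℕ) : 𝓞 K) ∈ I) (L : ℂ_[p] → ℂ_[p]) (hL : IsIwasawaLog p L) (q : ℕ)
    (θ : Fin q → (𝓞 H)ˣ) (a : Fin q → ℂ_[p]) (ha : a ≠ 0)
    (hrel : ∀ (σ : H →+* ℂ_[p]), (∀ x ∈ I, ‖σ (algebraMap K H (x : K))‖ < 1) →
      ∑ i, a i * L (σ ((θ i : 𝓞 H) : H)) = 0) :
    ∃ b : Fin q → ℤ_[p], b ≠ 0 ∧
      Pool.Agent.Q7.LK.Rel p H (I.map (algebraMap (𝓞 K) (𝓞 H))) θ b := by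
  classical
  set J : Ideal (𝓞 H) := I.map (algebraMap (𝓞 K) (𝓞 H)) with hJdef
  have hpJ : ((p : ℕ) : 𝓞 H) ∈ J := by
    have h1 := Ideal.mem_map_of_mem (algebraMap (𝓞 K) (𝓞 H)) hpI
    rwa [map_natCast] at h1
  have hAb : ∀ σ : H →+* ℂ_[p], Ab J σ → (∀ x ∈ I, ‖σ (algebraMap K H (x : K))‖ < 1) := by
    intro σ hσ x hx
    exact hσ _ (Ideal.mem_map_of_mem (algebraMap (𝓞 K) (𝓞 H)) hx)
  obtain ⟨n, hn, hnU⟩ := exists_pow_U4 H p
  have hn' : (n : ℂ_[p]) ≠ 0 := by exact_mod_cast hn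
  have hy := fun i => (mem_U4 (θ i ^ n)).1 (hnU (θ i))
  choose y hy using hy
  have hd := fun i => exists_d hL J (((θ i ^ n : (𝓞 H)ˣ)) : 𝓞 H) (y i) (by rw [← hy i]; ring)
  choose d hd using hd
  obtain ⟨N, hN⟩ := exists_inv (p := p) (E := H)
  have hlogn : ∀ (σ : H →+* ℂ_[p]) i, L (σ (((θ i ^ n : (𝓞 H)ˣ) : 𝓞 H) : H)) =
      (n : ℂ_[p]) * L (σ ((θ i : 𝓞 H) : H)) := fun σ i => log_pow hL σ (θ i) n
  have h1 : ∀ m, ∑ i, a i * algebraMap ℚ_[p] ℂ_[p] (d i m) = 0 := by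
    intro m
    rw [hN (fun m => ∑ i, a i * algebraMap ℚ_[p] ℂ_[p] (d i m)) m]
    refine Finset.sum_eq_zero fun σ _ => ?_
    have h3 : ∑ m, (∑ i, a i * algebraMap ℚ_[p] ℂ_[p] (d i m)) * σ ((om H m : 𝓞 H) : H) = 0 := by
      simp only [Finset.sum_mul]
      rw [Finset.sum_comm]
      have h4 : ∀ i, ∑ m, a i * algebraMap ℚ_[p] ℂ_[p] (d i m) * σ ((om H m : 𝓞 H) : H) =
          a i * (if Ab J σ then L (σ (((θ i ^ n : (𝓞 H)ˣ) : 𝓞 H) : H)) else 0) := by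
        intro i
        rw [← hd i σ, Finset.mul_sum]
        refine Finset.sum_congr rfl fun m _ => ?_
        ring
      simp only [h4]
      by_cases h : Ab J σ
      · simp only [if_pos h, hlogn]
        have h5 := hrel σ (hAb σ h)
        calc ∑ i, a i * ((n : ℂ_[p]) * L (σ ((θ i : 𝓞 H) : H))) =
              (n : ℂ_[p]) * ∑ i, a i * L (σ ((θ i : 𝓞 H) : H)) := by
              rw [Finset.mul_sum]
              refine Finset.sum_congr rfl fun i _ => ?_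
              ring
          _ = 0 := by rw [h5, mul_zero]
      · simp only [if_neg h, mul_zero, Finset.sum_const_zero]
    rw [h3, zero_mul]
  -- a functional
  obtain ⟨i0, hi0⟩ : ∃ i0, a i0 ≠ 0 := by
    by_contra h
    push Not at h
    exact ha (funext h)
  obtain ⟨f, hf⟩ : ∃ f : Module.Dual ℚ_[p] ℂ_[p], f (a i0) ≠ 0 := by
    by_contra h
    push Not at h
    exact hi0 ((Module.forall_dual_apply_eq_zero_iff ℚ_[p] (a i0)).1 h)
  have h4 : ∀ j, ∑ i, f (a i) * d i j = 0 := by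
    intro j
    have h5 := congrArg f (h1 j)
    rw [map_sum, map_zero] at h5
    rw [← h5]
    refine Finset.sum_congr rfl fun i _ => ?_
    rw [mul_comm (a i), ← Algebra.smul_def, map_smul, smul_eq_mul, mul_comm]
  -- scaling
  have hne : Nonempty (Fin q) := ⟨i0⟩
  obtain ⟨i1, hi1⟩ := Finite.exists_max (fun i => ‖f (a i)‖)
  have hfi1 : f (a i1) ≠ 0 := by
    intro h0
    have h5 := hi1 i0
    rw [h0, norm_zero] at h5
    exact hf (norm_le_zero_iff.1 h5)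
  have hle : ∀ i, ‖f (a i) / f (a i1)‖ ≤ 1 := by
    intro i
    rw [norm_div, div_le_one (norm_pos_iff.2 hfi1)]
    exact hi1 i
  set c : Fin q → ℤ_[p] := fun i => ⟨f (a i) / f (a i1), hle i⟩ with hc
  have hcc : ∀ i, ((c i : ℤ_[p]) : ℚ_[p]) = f (a i) / f (a i1) := fun i => rfl
  have hc1 : c i1 ≠ 0 := by
    intro h0
    have h5 := congrArg (fun z : PadicInt p => (z : ℚ_[p])) h0
    simp only [hcc, PadicInt.coe_zero] at h5
    rw [div_self hfi1] at h5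
    exact one_ne_zero h5
  have hcrel : Pool.Agent.Q7.LK.Rel p H J (fun i => θ i ^ n) c := by
    apply rel_of_log hL J hpJ _ (fun i => hnU (θ i))
    intro σ hσ
    have h6 : ∀ i, L (σ (((θ i ^ n : (𝓞 H)ˣ) : 𝓞 H) : H)) =
        ∑ m, algebraMap ℚ_[p] ℂ_[p] (d i m) * σ ((om H m : 𝓞 H) : H) := by
      intro i
      rw [hd i σ, if_pos hσ]
    simp only [h6, hcc]
    have h7 : ∀ i, algebraMap ℚ_[p] ℂ_[p] (f (a i) / f (a i1)) *
        ∑ m, algebraMap ℚ_[p] ℂ_[p] (d i m) * σ ((om H m : 𝓞 H) : H) =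
        ∑ m, algebraMap ℚ_[p] ℂ_[p] ((f (a i) * d i m) / f (a i1)) * σ ((om H m : 𝓞 H) : H) := by
      intro i
      rw [Finset.mul_sum]
      refine Finset.sum_congr rfl fun m _ => ?_
      rw [← mul_assoc, ← map_mul]
      congr 2
      ring
    rw [Finset.sum_congr rfl fun i _ => h7 i, Finset.sum_comm]
    refine Finset.sum_eq_zero fun m _ => ?_
    rw [← Finset.sum_mul, ← map_sum, ← Finset.sum_div, h4 m, zero_div, map_zero, zero_mul]
  refine ⟨fun i => (n : ℤ_[p]) * c i, ?_, ?_⟩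
  · have hn2 : (n : ℤ_[p]) ≠ 0 := by exact_mod_cast hn
    intro h0
    exact hc1 ((mul_eq_zero.1 (congrFun h0 i1)).resolve_left hn2)
  · obtain ⟨m, hm, hm2⟩ := hcrel
    refine ⟨fun k i => (n : ℤ) * m k i, fun i => ?_, fun N => ?_⟩
    · have h8 := (hm i).const_mul (n : ℤ_[p])
      refine h8.congr fun k => ?_
      push_cast
      rfl
    · filter_upwards [hm2 N] with k hk
      have h2 : ∏ i, θ i ^ ((n : ℤ) * m k i) = ∏ i, (θ i ^ n) ^ m k i := by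
        refine Finset.prod_congr rfl fun i _ => ?_
        rw [zpow_mul, zpow_natCast]
      rw [h2]
      exact hk

section

variable {p : ℕ} [hp : Fact p.Prime] {K H : Type} [Field K] [NumberField K] [Field H] [NumberField H] [Algebra K H]

/-- the combinations of the units `θ` -/
noncomputable def comb {q : ℕ} (θ : Fin q → (𝓞 H)ˣ) : (Fin q → ℂ_[p]) →ₗ[ℂ_[p]] UM p H where
  toFun A := ∑ j, A j ⊗ₜ[ℤ] Additive.ofMul (θ j)
  map_add' A B := by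
    rw [← Finset.sum_add_distrib]
    refine Finset.sum_congr rfl fun j _ => ?_
    rw [Pi.add_apply, TensorProduct.add_tmul]
  map_smul' c A := by
    rw [RingHom.id_apply, Finset.smul_sum]
    refine Finset.sum_congr rfl fun j _ => ?_
    rw [Pi.smul_apply, TensorProduct.smul_tmul']

theorem comb_apply {q : ℕ} (θ : Fin q → (𝓞 H)ˣ) (A : Fin q → ℂ_[p]) :
    comb θ A = ∑ j, A j ⊗ₜ[ℤ] Additive.ofMul (θ j) := rfl

open Pool.Agent.Q14.LQS in
theorem exists_comb {q : ℕ} (θ : Fin q → (𝓞 H)ˣ) {h : ℕ} (hh0 : 0 < h)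
    (hspan : ∀ η ∈ (nU K : (𝓞 H)ˣ →* (𝓞 K)ˣ).ker, ∃ c : Fin q → ℤ, η ^ h = (∏ i, θ i ^ c i) ^ h)
    (τ : H ≃ₐ[K] H) (z : UM p H) : ∃ A : Fin q → ℂ_[p], z - actLin p (τ : H →+* H) z = comb θ A := by
  induction z using TensorProduct.induction_on with
  | zero => exact ⟨0, by simp⟩
  | add x y hx hy =>
    obtain ⟨a, ha⟩ := hx
    obtain ⟨b, hb⟩ := hy
    refine ⟨a + b, ?_⟩
    rw [map_add, map_add, ← ha, ← hb]
    abel
  | tmul c u =>
    set v : (𝓞 H)ˣ := Additive.toMul u with hv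
    set w : (𝓞 H)ˣ := v / sU τ v with hw
    have hwk : w ∈ (nU K : (𝓞 H)ˣ →* (𝓞 K)ˣ).ker := by
      rw [MonoidHom.mem_ker, hw, map_div, div_eq_one]
      apply Units.ext
      apply RingOfIntegers.ext
      rw [nU_coe, nU_coe, sU_coe, Algebra.norm_eq_of_algEquiv]
    obtain ⟨e, he⟩ := hspan w hwk
    refine ⟨fun j => c * (e j : ℂ_[p]), ?_⟩
    have h1 : actLin p (τ : H →+* H) (c ⊗ₜ[ℤ] u) = c ⊗ₜ[ℤ] Additive.ofMul (sU τ v) := rfl
    have h2 : u = Additive.ofMul v := rfl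
    have h3 : Additive.ofMul w = Additive.ofMul (w / ∏ i, θ i ^ e i) + ∑ i, e i • Additive.ofMul (θ i) := by
      have h4 : ∑ i, e i • Additive.ofMul (θ i) = Additive.ofMul (∏ i, θ i ^ e i) := by
        rw [ofMul_prod]
        exact Finset.sum_congr rfl fun i _ => (ofMul_zpow _ _).symm
      rw [h4, ← ofMul_mul, div_mul_cancel]
    have h5 : h • Additive.ofMul (w / ∏ i, θ i ^ e i) = 0 := by
      rw [← ofMul_pow, div_pow, he, div_self', ofMul_one]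
    rw [h1, comb_apply]
    have h6 : c ⊗ₜ[ℤ] u - (c ⊗ₜ[ℤ] Additive.ofMul (sU τ v) : UM p H) = c ⊗ₜ[ℤ] Additive.ofMul w := by
      rw [← TensorProduct.tmul_sub, h2, ← ofMul_div]
    rw [h6, h3, TensorProduct.tmul_add, tmul_torsion c _ h hh0.ne' h5, zero_add, TensorProduct.tmul_sum]
    refine Finset.sum_congr rfl fun j _ => ?_
    rw [tmul_zsmul]

end

/-- job SGA -/
theorem sga : Pool.Agent.Q7.LK.S_SGA := by
  classical
  intro p _ _ K H _ _ _ _ _ _ I hpI S hS L hL χ hχ x hx0 hact hlog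
  obtain ⟨τ, hτ⟩ : ∃ τ : H ≃ₐ[K] H, χ τ ≠ 1 := by
    by_contra hcon
    push Not at hcon
    exact hχ (MonoidHom.ext hcon)
  have hc0 : (1 : ℂ_[p]) - ((χ τ : ℂ_[p]ˣ) : ℂ_[p]) ≠ 0 := by
    intro h0
    exact hτ (Units.ext (sub_eq_zero.1 h0).symm)
  obtain ⟨q, θ, h, hh0, hθE, hθ, hspan⟩ := Pool.Agent.Q14.LQS.unit_basis (K := H)
    (Pool.Agent.Q14.LQS.nU K : (𝓞 H)ˣ →* (𝓞 K)ˣ).ker
  obtain ⟨A, hA⟩ := exists_comb (p := p) θ hh0 hspan τ x
  have h1 : ((1 : ℂ_[p]) - ((χ τ : ℂ_[p]ˣ) : ℂ_[p])) • x = comb θ A := by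
    rw [← hA, hact τ, sub_smul, one_smul]
  have hA0 : A ≠ 0 := by
    rintro rfl
    rw [map_zero] at h1
    exact (smul_ne_zero hc0 hx0) h1
  obtain ⟨b, hb, hb2⟩ := core K H I hpI L hL q θ A hA0 (by
    intro σ hσ
    have h2 := hlog σ ((hS _).2 hσ)
    have h3 := congrArg (logLin hL σ) h1
    rw [map_smul, h2, smul_zero, comb_apply, map_sum] at h3
    exact h3.symm)
  exact ⟨q, θ, h, hh0, fun i => Pool.Agent.Q14.LQS.nU_eq_one.1 (hθE i), hθ,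
    fun η hη => hspan η (Pool.Agent.Q14.LQS.nU_eq_one.2 hη), b, hb, hb2⟩

end Pool.Agent.Q22.LK
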